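import Pool.Agent.Q260.DJ.Den
import Pool.Agent.H370R2.Local

/-! # Project DJ, job LC: local count of the zeros -/

set_option autoImplicit false

namespace Pool.Agent.Q239.DJ

open Complex Filter Topology Metric Set
open Pool.Agent.Q260.DJ
open Pool.Agent.H24R2.JP (HH XX FF gam jensen Hyperbolic Om Par xi)

lemma cl_It (h1 : S_C0) (h2 : S_CD) : ∀ l : List Bool, Cl (It l)
  | [] => h1
  | b :: l => h2 b (It l) (cl_It h1 h2 l)

lemma one_le_log {T : ℝ} (hT : 3 ≤ T) : 1 ≤ Real.log T := by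
  rw [Real.le_log_iff_exp_le (by linarith)]
  linarith [Real.exp_one_lt_d9]

lemma log_double {T T' : ℝ} (hT : 6 ≤ T) (h0 : 0 < T') (h1 : T' ≤ 2 * T) :
    Real.log T' ≤ 2 * Real.log T := by
  have h3 : Real.log T' ≤ Real.log 2 + Real.log T := by
    rw [← Real.log_mul (by norm_num) (by linarith)]
    exact Real.log_le_log h0 h1
  have h4 : Real.log 2 ≤ Real.log T := Real.log_le_log (by norm_num) (by linarith)
  linarith

lemma order_smul {G : ℂ → ℂ} (hG : Differentiable ℂ G) {a : ℂ} (ha : a ≠ 0) (z : ℂ) :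
    analyticOrderNatAt (fun w => a * G w) z = analyticOrderNatAt G z := by
  unfold analyticOrderNatAt
  have h1 : AnalyticAt ℂ (fun _ : ℂ => a) z := analyticAt_const
  have h2 : AnalyticAt ℂ G z := hG.analyticAt z
  have h3 := analyticOrderAt_mul h1 h2
  have h4 : analyticOrderAt (fun _ : ℂ => a) z = 0 := by
    rw [h1.analyticOrderAt_eq_zero]; exact ha
  rw [h4, zero_add] at h3
  have h5 : (fun w => a * G w) = (fun _ : ℂ => a) * G := rfl
  rw [h5, h3]

theorem t_LC : S_LC := by
  intro l F G hR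
  have hcl := cl_It c0 cd l
  obtain ⟨A, T1, hA, hT1, hgrow⟩ := hcl.grow (-19 / 20) 8 (by norm_num) (by norm_num)
  obtain ⟨k, j, C0, T2, hC0, hT2, hmass⟩ := hcl.mass
  obtain ⟨C3, T3, hC3, hT3, -, hHH⟩ := hb
  have hκ : 0 < Real.log (39 / 32) := Real.log_pos (by norm_num)
  set B : ℝ := 2 * A + 3 * C3 with hB
  set E : ℝ := (j : ℝ) + Real.log C0 with hE
  have hlC0 : 0 ≤ Real.log C0 := Real.log_nonneg hC0
  have hE0 : 0 ≤ E := by positivity
  have hB0 : 0 < B := by positivity
  refine ⟨(B + E) / Real.log (39 / 32), T1 + T2 + T3 + 10, by positivity, by linarith, ?_⟩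
  intro T hT Z hZ
  have hT6 : 6 ≤ T := by linarith
  have hT0 : 0 < T := by linarith
  have hL := one_le_log (T := T) (by linarith)
  set L := Real.log T with hLdef
  set c : ℂ := 3 + I * T with hc
  have hcre : c.re = 3 := by simp [hc]
  have hcim : c.im = T := by simp [hc]
  have hball : ∀ z ∈ closedBall c 3.9, -19 / 20 ≤ z.re ∧ z.re ≤ 8 ∧ |z.im - T| ≤ 3.9 := by
    intro z hz
    rw [mem_closedBall, dist_eq_norm] at hz
    have h1 := abs_le.1 ((abs_re_le_norm (z - c)).trans hz)
    have h2 := (abs_im_le_norm (z - c)).trans hz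
    rw [sub_re, hcre] at h1
    rw [sub_im, hcim] at h2
    exact ⟨by linarith, by linarith, h2⟩
  -- the centre
  obtain ⟨hm1, -⟩ := hmass T (by linarith)
  have hcit : It l c = G c := hR.it c (by
    intro h
    have := congrArg Complex.im h
    rw [hcim, Complex.zero_im] at this
    linarith)
  rw [← hc, hcit] at hm1
  have hlow : 0 < L ^ k / T ^ j / C0 := by positivity
  have hHc : 0 < ‖HH c‖ := by
    rcases (norm_nonneg (HH c)).eq_or_lt with h | h
    · rw [← h, div_zero] at hm1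
      linarith
    · exact h
  have hGc : Real.exp (-(E * L)) ≤ ‖G c‖ / ‖HH c‖ := by
    refine le_trans ?_ hm1
    have e1 : Real.exp (-(E * L)) = Real.exp (-(Real.log C0 * L)) * Real.exp (-((j : ℝ) * L)) := by
      rw [← Real.exp_add]; congr 1; rw [hE]; ring
    have e2 : Real.exp (-((j : ℝ) * L)) = (T ^ j)⁻¹ := by
      rw [Real.exp_neg, Real.exp_nat_mul, hLdef, Real.exp_log hT0]
    have e3 : Real.exp (-(Real.log C0 * L)) ≤ C0⁻¹ := by
      rw [Real.exp_neg]
      apply inv_anti₀ (by linarith)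
      calc C0 = Real.exp (Real.log C0) := (Real.exp_log (by linarith)).symm
        _ ≤ Real.exp (Real.log C0 * L) := Real.exp_le_exp.2 (by nlinarith)
    rw [e1, e2]
    have e4 : L ^ k / T ^ j / C0 = L ^ k * (C0⁻¹ * (T ^ j)⁻¹) := by
      field_simp
    rw [e4]
    have e5 : Real.exp (-(Real.log C0 * L)) * (T ^ j)⁻¹ ≤ C0⁻¹ * (T ^ j)⁻¹ :=
      mul_le_mul_of_nonneg_right e3 (by positivity)
    have e6 : (1 : ℝ) ≤ L ^ k := one_le_pow₀ hL
    have e7 : 0 ≤ C0⁻¹ * (T ^ j)⁻¹ := by positivity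
    nlinarith
  -- normalised function
  set a : ℂ := ((‖HH c‖⁻¹ : ℝ) : ℂ) with ha
  have ha0 : a ≠ 0 := by
    rw [ha]; exact_mod_cast (inv_pos.2 hHc).ne'
  have hna : ‖a‖ = ‖HH c‖⁻¹ := by
    rw [ha, Complex.norm_real, Real.norm_of_nonneg (inv_pos.2 hHc).le]
  have hfc : Real.exp (-(E * L)) ≤ ‖a * G c‖ := by
    rw [norm_mul, hna, mul_comm (‖HH c‖⁻¹) ‖G c‖, ← div_eq_mul_inv]; exact hGc
  have hfc0 : 0 < ‖a * G c‖ := lt_of_lt_of_le (Real.exp_pos _) hfc
  have hM : ∀ w ∈ closedBall c 3.9, ‖a * G w‖ ≤ Real.exp (B * L) := by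
    intro w hw
    obtain ⟨b1, b2, b3⟩ := hball w hw
    have b4 := abs_le.1 b3
    have hwim : 0 < w.im := by linarith
    have hwit : It l w = G w := hR.it w (im_ne hwim)
    have g1 := hgrow w b1 b2 (by linarith)
    rw [hwit] at g1
    have hlw : Real.log w.im ≤ 2 * L := log_double hT6 hwim (by linarith)
    -- midpoint
    set m : ℂ := (w + c) / 2 with hm
    have hmc : ‖m - c‖ ≤ 2 := by
      have : m - c = (w - c) / 2 := by rw [hm]; ring
      rw [this, norm_div, ← dist_eq_norm]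
      have h2 : ‖(2 : ℂ)‖ = 2 := by norm_num
      rw [h2]
      have := mem_closedBall.1 hw
      linarith
    have hwm : ‖w - m‖ ≤ 2 := by
      have : w - m = (w - c) / 2 := by rw [hm]; ring
      rw [this, norm_div, ← dist_eq_norm]
      have h2 : ‖(2 : ℂ)‖ = 2 := by norm_num
      rw [h2]
      have := mem_closedBall.1 hw
      linarith
    have hmre : m.re = (w.re + 3) / 2 := by
      rw [hm, ← hcre]
      simp [Complex.add_re]
    have hmim : m.im = (w.im + T) / 2 := by
      have : m.im = (w.im + c.im) / 2 := by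
        rw [hm]; simp [Complex.add_im]
      rw [this, hcim]
    have k1 := hHH m w (by rw [hmre]; linarith) (by rw [hmre]; linarith) (by linarith) (by linarith)
      (by rw [hmim]; linarith) hwm
    have k2 := hHH c m (by rw [hcre]; norm_num) (by rw [hcre]; norm_num) (by rw [hmre]; linarith)
      (by rw [hmre]; linarith) (by rw [hcim]; linarith) hmc
    rw [hcim] at k2
    have hlm : Real.log m.im ≤ 2 * L := log_double hT6 (by rw [hmim]; linarith) (by rw [hmim]; linarith)
    have k3 : ‖HH w‖ ≤ Real.exp (3 * C3 * L) * ‖HH c‖ := by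
      refine k1.trans ?_
      calc Real.exp (C3 * Real.log m.im) * ‖HH m‖
          ≤ Real.exp (C3 * (2 * L)) * (Real.exp (C3 * L) * ‖HH c‖) := by
            apply mul_le_mul _ k2 (norm_nonneg _) (Real.exp_pos _).le
            exact Real.exp_le_exp.2 (mul_le_mul_of_nonneg_left hlm (by linarith))
        _ = Real.exp (3 * C3 * L) * ‖HH c‖ := by
            rw [← mul_assoc, ← Real.exp_add]; congr 2; ring
    rw [norm_mul, hna]
    calc ‖HH c‖⁻¹ * ‖G w‖ ≤ ‖HH c‖⁻¹ * (Real.exp (A * (2 * L)) * (Real.exp (3 * C3 * L) * ‖HH c‖)) := by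
          apply mul_le_mul_of_nonneg_left _ (inv_pos.2 hHc).le
          refine g1.trans ?_
          apply mul_le_mul _ k3 (norm_nonneg _) (Real.exp_pos _).le
          exact Real.exp_le_exp.2 (mul_le_mul_of_nonneg_left hlw hA.le)
      _ = Real.exp (A * (2 * L)) * Real.exp (3 * C3 * L) * (‖HH c‖⁻¹ * ‖HH c‖) := by ring
      _ = Real.exp (B * L) := by
          rw [inv_mul_cancel₀ hHc.ne', mul_one, ← Real.exp_add]; congr 1; rw [hB]; ring
  have hj := H370.Loc.jensen_mult (f := fun z => a * G z) (c := c) (r := 3.2) (R := 3.9)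
    (M := Real.exp (B * L)) (by norm_num) (by norm_num) (Real.one_le_exp (by positivity))
    (fun w _ => ((hR.diff.const_mul a).analyticAt w)) (norm_pos_iff.1 hfc0) hM Z (fun z hz => by
      obtain ⟨h1, h2, h3⟩ := hZ z hz
      have h3' := hR.strip z h1
      have h3'' := abs_le.1 h3'
      rw [mem_closedBall, dist_eq_norm]
      have h4 : ‖z - c‖ ^ 2 ≤ 3.2 ^ 2 := by
        rw [← Complex.normSq_eq_norm_sq, normSq_apply, sub_re, sub_im, hcre, hcim]
        have h5 := abs_le.1 h3
        have h6 : (z.im - T) * (z.im - T) ≤ 1 := by nlinarith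
        have h7 : (z.re - 3) * (z.re - 3) ≤ 9 := by nlinarith
        norm_num
        linarith
      exact abs_le_of_sq_le_sq' h4 (by norm_num) |>.2)
  have hmult : ∀ z ∈ Z, (H370.mult (fun z => a * G z) z : ℝ) = (analyticOrderNatAt G z : ℝ) := by
    intro z _
    unfold H370.mult
    rw [order_smul hR.diff ha0]
  rw [Finset.sum_congr rfl hmult] at hj
  refine hj.trans ?_
  have hr : (3.9 : ℝ) / 3.2 = 39 / 32 := by norm_num
  rw [hr, div_mul_eq_mul_div]
  apply div_le_div_of_nonneg_right _ hκ.le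
  rw [Real.log_div (Real.exp_pos _).ne' hfc0.ne', Real.log_exp]
  have h8 : -(E * L) ≤ Real.log ‖a * G c‖ := by
    rw [Real.le_log_iff_exp_le hfc0]; exact hfc
  nlinarith

end Pool.Agent.Q239.DJ
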